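import Pool.Agent.Helper53.MF.Defs

set_option autoImplicit false

/-!
# MP_743d72_nt (S17427), module VOL : Gram determinants
-/

namespace Pool.Agent.Helper53.MF

open Submodule Module Set

noncomputable section

section VOL

variable {E F : Type*} [NormedAddCommGroup E] [InnerProductSpace ℝ E]
  [NormedAddCommGroup F] [InnerProductSpace ℝ F]
variable {ι κ μ : Type*} [Fintype ι] [DecidableEq ι] [Fintype κ] [DecidableEq κ]
  [Fintype μ] [DecidableEq μ]

theorem vol_nonneg (v : ι → E) : 0 ≤ vol v := Real.sqrt_nonneg _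

theorem det_gram_nonneg (v : ι → E) : 0 ≤ (Matrix.gram ℝ v).det :=
  (Matrix.posSemidef_gram ℝ v).det_nonneg

theorem vol_pos {v : ι → E} (h : LinearIndependent ℝ v) : 0 < vol v :=
  Real.sqrt_pos.2 (Matrix.posDef_gram_of_linearIndependent h).det_pos

theorem vol_isEmpty [IsEmpty ι] (v : ι → E) : vol v = 1 := by
  simp [vol]

theorem vol_reindex (e : κ ≃ ι) (v : ι → E) : vol (fun k => v (e k)) = vol v := by
  unfold vol
  have : Matrix.gram ℝ (fun k => v (e k)) = (Matrix.gram ℝ v).submatrix e e := rfl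
  rw [this, Matrix.det_submatrix_equiv_self]

/-- change of basis -/
theorem vol_matrix (A : Matrix ι ι ℝ) (v : ι → E) :
    vol (fun i => ∑ j, A i j • v j) = |A.det| * vol v := by
  unfold vol
  have h : Matrix.gram ℝ (fun i => ∑ j, A i j • v j)
      = A * Matrix.gram ℝ v * A.transpose := by
    ext i j
    simp only [Matrix.gram_apply, Matrix.mul_apply, Matrix.transpose_apply, sum_inner, inner_sum,
      inner_smul_left, inner_smul_right, Finset.sum_mul]
    refine Finset.sum_congr rfl fun k _ => ?_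
    rw [Finset.mul_sum]
    refine Finset.sum_congr rfl fun l _ => ?_
    simp
    rw [real_inner_comm]
    ring
  rw [h, Matrix.det_mul, Matrix.det_mul, Matrix.det_transpose,
    show A.det * (Matrix.gram ℝ v).det * A.det = A.det ^ 2 * (Matrix.gram ℝ v).det by ring,
    Real.sqrt_mul (sq_nonneg _), Real.sqrt_sq_eq_abs]

/-- square case: volume = determinant of the matrix of coordinates -/
theorem vol_euclidean (v : ι → EuclideanSpace ℝ ι) :
    vol v = |(Matrix.of fun i j => v i j).det| := by
  unfold vol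
  have h : Matrix.gram ℝ v
      = (Matrix.of fun i j => v i j) * (Matrix.of fun i j => v i j).transpose := by
    ext i j
    simp only [Matrix.gram_apply, Matrix.mul_apply, Matrix.transpose_apply, Matrix.of_apply,
      PiLp.inner_apply]
    refine Finset.sum_congr rfl fun k _ => ?_
    simp [mul_comm]
  rw [h, Matrix.det_mul, Matrix.det_transpose, ← sq, Real.sqrt_sq_eq_abs]

instance instFD (y : ι → E) : FiniteDimensional ℝ (span ℝ (Set.range y)) :=
  FiniteDimensional.span_of_finite ℝ (Set.finite_range y)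

/-- the orthogonal projection onto the orthogonal complement of the span of `y` -/
def prj (y : ι → E) : E →ₗ[ℝ] E :=
  LinearMap.id - ((span ℝ (Set.range y)).starProjection : E →ₗ[ℝ] E)

omit [DecidableEq ι] in
theorem prj_apply (y : ι → E) (z : E) :
    prj y z = z - (span ℝ (Set.range y)).starProjection z := rfl

theorem prj_of_mem (y : ι → E) {z : E} (hz : z ∈ span ℝ (Set.range y)) : prj y z = 0 := by
  rw [prj_apply, starProjection_eq_self_iff.2 hz, sub_self]

theorem inner_prj (y : ι → E) (z : E) {u : E} (hu : u ∈ span ℝ (Set.range y)) :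
    inner ℝ (prj y z) u = 0 := by
  rw [prj_apply]
  exact starProjection_inner_eq_zero z u hu

theorem prj_eq_sub (y : ι → E) (z : E) : ∃ c : ι → ℝ, prj y z = z - ∑ i, c i • y i := by
  have h : (span ℝ (Set.range y)).starProjection z ∈ span ℝ (Set.range y) :=
    starProjection_apply_mem _ _
  obtain ⟨c, hc⟩ := (mem_span_range_iff_exists_fun ℝ).1 h
  exact ⟨c, by rw [prj_apply, hc]⟩

theorem norm_prj_le (y : ι → E) (z : E) : ‖prj y z‖ ≤ ‖z‖ := by
  rw [prj_apply, ← starProjection_orthogonal_val]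
  exact norm_starProjection_apply_le _ _

theorem norm_prj_le_sub (y : ι → E) (z : E) (c : ι → ℝ) :
    ‖prj y z‖ ≤ ‖z - ∑ i, c i • y i‖ := by
  have h : prj y (z - ∑ i, c i • y i) = prj y z := by
    rw [map_sub, prj_of_mem y (z := ∑ i, c i • y i), sub_zero]
    exact (mem_span_range_iff_exists_fun ℝ).2 ⟨c, rfl⟩
  rw [← h]
  exact norm_prj_le _ _

/-- block formula -/
theorem vol_sum (y : ι → E) (w : κ → E) :
    vol (Sum.elim y w) = vol y * vol (fun k => prj y (w k)) := by
  choose B hB using fun k => prj_eq_sub y (w k)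
  have h1 : vol (Sum.elim y (fun k => prj y (w k))) = vol (Sum.elim y w) := by
    have h := vol_matrix (Matrix.fromBlocks (1 : Matrix ι ι ℝ) 0 (Matrix.of fun k i => - B k i)
      (1 : Matrix κ κ ℝ)) (Sum.elim y w)
    rw [Matrix.det_fromBlocks_zero₁₂, Matrix.det_one, Matrix.det_one, mul_one, abs_one,
      one_mul] at h
    rw [← h]
    congr 1
    funext s
    rcases s with i | k
    · simp [Matrix.one_apply]
    · simp only [Sum.elim_inr, Fintype.sum_sum_type, Matrix.fromBlocks_apply₂₁,
        Matrix.of_apply, Sum.elim_inl, Matrix.fromBlocks_apply₂₂, Matrix.one_apply, ite_smul,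
        one_smul, zero_smul, Finset.sum_ite_eq, Finset.mem_univ, if_true, neg_smul,
        Finset.sum_neg_distrib, hB]
      abel
  have h2 : Matrix.gram ℝ (Sum.elim y (fun k => prj y (w k)))
      = Matrix.fromBlocks (Matrix.gram ℝ y) 0 0 (Matrix.gram ℝ (fun k => prj y (w k))) := by
    ext s t
    rcases s with i | k <;> rcases t with j | l
    · simp
    · simp only [Matrix.gram_apply, Sum.elim_inl, Sum.elim_inr, Matrix.fromBlocks_apply₁₂,
        Matrix.zero_apply]
      rw [real_inner_comm]
      exact inner_prj y _ (subset_span ⟨i, rfl⟩)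
    · simp only [Matrix.gram_apply, Sum.elim_inl, Sum.elim_inr, Matrix.fromBlocks_apply₂₁,
        Matrix.zero_apply]
      exact inner_prj y _ (subset_span ⟨j, rfl⟩)
    · simp
  rw [← h1]
  unfold vol
  rw [h2, Matrix.det_fromBlocks_zero₁₂, Real.sqrt_mul (det_gram_nonneg y)]

theorem vol_unique [Unique ι] (v : ι → E) : vol v = ‖v default‖ := by
  unfold vol
  rw [Matrix.det_unique, Matrix.gram_apply, real_inner_self_eq_norm_sq,
    Real.sqrt_sq (norm_nonneg _)]

/-- Hadamard, one more vector -/
theorem vol_sum_unit_le (y : ι → E) (x : E) :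
    vol (Sum.elim y (fun _ : Unit => x)) ≤ vol y * ‖x‖ := by
  rw [vol_sum, vol_unique (fun _ : Unit => prj y x)]
  exact mul_le_mul_of_nonneg_left (norm_prj_le _ _) (vol_nonneg _)

theorem vol_fin_succ {n : ℕ} (u : Fin (n + 1) → E) :
    vol u = vol (fun i : Fin n => u (Fin.castSucc i)) *
      ‖prj (fun i : Fin n => u (Fin.castSucc i)) (u (Fin.last n))‖ := by
  rw [← vol_reindex (finSumFinEquiv (m := n) (n := 1)) u]
  have : (fun k => u (finSumFinEquiv (m := n) (n := 1) k))
      = Sum.elim (fun i : Fin n => u (Fin.castSucc i)) (fun _ : Fin 1 => u (Fin.last n)) := by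
    funext s
    rcases s with i | i
    · rfl
    · simp only [finSumFinEquiv_apply_right, Sum.elim_inr]
      congr 1
      ext
      simp
  rw [this, vol_sum, vol_unique (fun _ : Fin 1 => _)]

theorem vol_le_pow_mul_fin {K : ℝ} (hK : 0 ≤ K) : ∀ (n : ℕ) (v : Fin n → E) (w : Fin n → F),
    (∀ c : Fin n → ℝ, ‖∑ i, c i • v i‖ ≤ K * ‖∑ i, c i • w i‖) → vol v ≤ K ^ n * vol w
  | 0, v, w, _ => by simp [vol_isEmpty]
  | n + 1, v, w, h => by
    rw [vol_fin_succ v, vol_fin_succ w]
    have h1 := vol_le_pow_mul_fin hK n (fun i : Fin n => v (Fin.castSucc i))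
      (fun i : Fin n => w (Fin.castSucc i)) (by
        intro c
        have := h (Fin.snoc c 0)
        simpa [Fin.sum_univ_castSucc] using this)
    have h2 : ‖prj (fun i : Fin n => v (Fin.castSucc i)) (v (Fin.last n))‖
        ≤ K * ‖prj (fun i : Fin n => w (Fin.castSucc i)) (w (Fin.last n))‖ := by
      obtain ⟨c, hc⟩ := prj_eq_sub (fun i : Fin n => w (Fin.castSucc i)) (w (Fin.last n))
      rw [hc]
      refine (norm_prj_le_sub _ _ c).trans ?_
      have := h (Fin.snoc (fun i => - c i) 1)
      simp only [Fin.sum_univ_castSucc, Fin.snoc_castSucc, Fin.snoc_last, one_smul, neg_smul,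
        Finset.sum_neg_distrib] at this
      rw [sub_eq_neg_add, sub_eq_neg_add]
      exact this
    calc _ ≤ (K ^ n * vol (fun i : Fin n => w (Fin.castSucc i))) *
          (K * ‖prj (fun i : Fin n => w (Fin.castSucc i)) (w (Fin.last n))‖) :=
        mul_le_mul h1 h2 (norm_nonneg _) (mul_nonneg (pow_nonneg hK _) (vol_nonneg _))
      _ = _ := by ring

/-- contraction -/
theorem vol_le_pow_mul (v : ι → E) (w : ι → F) {K : ℝ} (hK : 0 ≤ K)
    (h : ∀ c : ι → ℝ, ‖∑ i, c i • v i‖ ≤ K * ‖∑ i, c i • w i‖) :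
    vol v ≤ K ^ Fintype.card ι * vol w := by
  have e := (Fintype.equivFin ι).symm
  rw [← vol_reindex e v, ← vol_reindex e w]
  refine vol_le_pow_mul_fin hK _ _ _ fun c => ?_
  have := h (fun i => c (e.symm i))
  rw [← e.sum_comp, ← e.sum_comp (fun i => c (e.symm i) • w i)] at this
  simpa using this

/-- Hadamard-Fischer (submodularity) -/
theorem vol_fischer (y : ι → E) (v : κ → E) (w : μ → E) :
    vol (Sum.elim (Sum.elim y v) w) * vol y ≤ vol (Sum.elim y v) * vol (Sum.elim y w) := by
  rw [vol_sum (Sum.elim y v) w, vol_sum y w]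
  have h : vol (fun k => prj (Sum.elim y v) (w k)) ≤ vol (fun k => prj y (w k)) := by
    have := vol_le_pow_mul (fun k => prj (Sum.elim y v) (w k)) (fun k => prj y (w k))
      zero_le_one (by
        intro c
        have e1 : ∑ i, c i • prj (Sum.elim y v) (w i)
            = prj (Sum.elim y v) (∑ i, c i • w i) := by simp
        have e2 : ∑ i, c i • prj y (w i) = prj y (∑ i, c i • w i) := by simp
        rw [e1, e2, one_mul]
        obtain ⟨a, ha⟩ := prj_eq_sub y (∑ i, c i • w i)
        rw [ha]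
        refine (norm_prj_le_sub _ _ (Sum.elim a 0)).trans (le_of_eq ?_)
        simp)
    simpa using this
  calc _ = (vol (Sum.elim y v) * vol y) * vol (fun k => prj (Sum.elim y v) (w k)) := by ring
    _ ≤ (vol (Sum.elim y v) * vol y) * vol (fun k => prj y (w k)) :=
      mul_le_mul_of_nonneg_left h (mul_nonneg (vol_nonneg _) (vol_nonneg _))
    _ = _ := by ring

/-- one index against all others -/
def splitEquiv (i₀ : ι) : Unit ⊕ {i : ι // i ≠ i₀} ≃ ι where
  toFun := Sum.elim (fun _ => i₀) (fun i => i)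
  invFun := fun i => if h : i = i₀ then Sum.inl () else Sum.inr ⟨i, h⟩
  left_inv := by
    intro s
    rcases s with u | ⟨i, hi⟩
    · simp
    · simp [hi]
  right_inv := by
    intro i
    by_cases hi : i = i₀
    · simp [hi]
    · simp [hi]

theorem vol_split (v : ι → E) (i₀ : ι) :
    vol v = ‖v i₀‖ * vol (fun i : {i : ι // i ≠ i₀} => prj (fun _ : Unit => v i₀) (v i)) := by
  rw [← vol_reindex (splitEquiv i₀) v]
  have : (fun k => v (splitEquiv i₀ k))
      = Sum.elim (fun _ : Unit => v i₀) (fun i : {i : ι // i ≠ i₀} => v i) := by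
    funext s
    rcases s with i | i
    · rfl
    · rfl
  rw [this, vol_sum, vol_unique (fun _ : Unit => _)]

/-- ratio: `vol w / vol v ≥ K^{-(r-1)} ‖w i₀‖ / ‖v i₀‖` -/
theorem vol_ratio (v : ι → E) (w : ι → F) {K : ℝ} (hK : 0 ≤ K)
    (h : ∀ c : ι → ℝ, ‖∑ i, c i • v i‖ ≤ K * ‖∑ i, c i • w i‖) (i₀ : ι) :
    vol v * ‖w i₀‖ ≤ K ^ (Fintype.card ι - 1) * ‖v i₀‖ * vol w := by
  rw [vol_split v i₀, vol_split w i₀]
  have hc : Fintype.card {i : ι // i ≠ i₀} = Fintype.card ι - 1 := by
    rw [Fintype.card_subtype_compl, Fintype.card_subtype_eq]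
  have h1 := vol_le_pow_mul (fun i : {i : ι // i ≠ i₀} => prj (fun _ : Unit => v i₀) (v i))
    (fun i : {i : ι // i ≠ i₀} => prj (fun _ : Unit => w i₀) (w i)) hK (by
      intro c
      have e1 : ∑ i : {i : ι // i ≠ i₀}, c i • prj (fun _ : Unit => v i₀) (v i)
          = prj (fun _ : Unit => v i₀) (∑ i : {i : ι // i ≠ i₀}, c i • v i) := by simp
      have e2 : ∑ i : {i : ι // i ≠ i₀}, c i • prj (fun _ : Unit => w i₀) (w i)
          = prj (fun _ : Unit => w i₀) (∑ i : {i : ι // i ≠ i₀}, c i • w i) := by simp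
      rw [e1, e2]
      obtain ⟨a, ha⟩ := prj_eq_sub (fun _ : Unit => w i₀)
        (∑ i : {i : ι // i ≠ i₀}, c i • w i)
      rw [ha]
      refine (norm_prj_le_sub _ _ a).trans ?_
      have := h (fun i => if hi : i = i₀ then - a () else c ⟨i, hi⟩)
      rw [← (splitEquiv i₀).sum_comp, ← (splitEquiv i₀).sum_comp (fun i =>
        (if hi : i = i₀ then - a () else c ⟨i, hi⟩) • w i)] at this
      simp only [Fintype.sum_sum_type, splitEquiv, Equiv.coe_fn_mk, Sum.elim_inl, Sum.elim_inr,
        Finset.univ_unique, Finset.sum_singleton, dif_pos] at this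
      have e3 : ∀ i : {i : ι // i ≠ i₀},
          (if hi : (i : ι) = i₀ then - a () else c ⟨(i : ι), hi⟩) = c i := by
        intro i
        rw [dif_neg i.2]
      simp only [e3] at this
      simp only [Finset.univ_unique, Finset.sum_singleton]
      rw [sub_eq_neg_add, sub_eq_neg_add, ← neg_smul, ← neg_smul]
      exact this)
  rw [hc] at h1
  calc _ = (‖v i₀‖ * ‖w i₀‖) * vol (fun i : {i : ι // i ≠ i₀} =>
        prj (fun _ : Unit => v i₀) (v i)) := by ring
    _ ≤ (‖v i₀‖ * ‖w i₀‖) * (K ^ (Fintype.card ι - 1) *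
        vol (fun i : {i : ι // i ≠ i₀} => prj (fun _ : Unit => w i₀) (w i))) :=
      mul_le_mul_of_nonneg_left h1 (mul_nonneg (norm_nonneg _) (norm_nonneg _))
    _ = _ := by ring

end VOL

end

end Pool.Agent.Helper53.MF
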